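import Pool.Agent.H.MP_411355_ag.B

set_option autoImplicit false
open MvPolynomial Finsupp Pool.Agent.H.MP_411355_ag

namespace Pool.Agent.H.MP_94ed3e_ag

universe u
variable {T : Type u} [CommRing T]

/-- Staircase. -/
def M1 : Fin 12 → ℕ × ℕ × ℕ :=
  ![(0,0,0), (0,0,1), (0,0,2), (0,0,3), (1,0,0), (0,1,0), (1,0,1), (1,1,0), (0,1,1), (0,1,2), (0,2,0), (0,2,1)]

/-- Partners. -/
def M2 : Fin 12 → ℕ × ℕ × ℕ :=
  ![(0,0,0), (0,0,1), (0,0,2), (0,0,3), (1,0,0), (0,1,0), (1,0,1), (1,1,0), (1,0,2), (1,0,3), (1,1,1), (1,1,2)]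

/-- The family. -/
def DD (s : T) (hs : s * s = 0) : Dat (fun j => ex (M1 j)) (fun j => ex (M2 j)) T where
  t := fun _ => 1
  t' := fun j => if j.1 < 8 then 0 else s
  u := fun _ => 1
  u' := fun _ => 0
  dual := fun i j => by
    have h1 : ∀ i j, M1 i = M1 j ↔ j = i := by decide
    have h2 : ∀ i j, M1 j = M2 i → i.1 < 8 := by decide
    simp only [cc_apply, coeff_monomial, ex_inj, h1, map_zero, add_zero, one_mul]
    by_cases h : M1 j = M2 i
    · simp [h2 i j h]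
    · simp [h]
  cl := fun f hf i j => by
    have h0 := hf 0; have h1 := hf 1; have h2 := hf 2; have h3 := hf 3; have h4 := hf 4; have h5 := hf 5
    have h6 := hf 6; have h7 := hf 7; have h8 := hf 8; have h9 := hf 9; have h10 := hf 10
    simp [cc_apply, M1, M2] at h0 h1 h2 h3 h4 h5 h6 h7 h8 h9 h10
    fin_cases i <;> fin_cases j <;> simp [cc_apply, M1, M2, co0, co1, co2, *]
    · linear_combination s * h8 - coeff (ex (1, 0, 2)) f * hs
    · linear_combination s * h9 - coeff (ex (1, 0, 3)) f * hs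

/-- The Hilbert function. -/
def h1 (a : ℤ × ℤ) : ℕ := if a = (1, 1) then 2 else
  if a ∈ ({(0, 0), (0, 1), (0, 2), (0, 3), (1, 0), (2, 1), (1, 2), (1, 3), (2, 2), (2, 3)} : Finset (ℤ × ℤ))
  then 1 else 0

theorem wt1 (i j l : ℕ) :
    weight ![((1 : ℤ), (0 : ℤ)), (1, 1), (0, 1)] (ex (i, j, l)) = ((i : ℤ) + j, (j : ℤ) + l) := by
  rw [wt_ex]; simp

theorem DD_hilb (s : T) (hs : s * s = 0) : (DD s hs).K ∈ Hilb ![((1 : ℤ), (0 : ℤ)), (1, 1), (0, 1)] h1 T := by
  have w1 : ∀ j, weight ![((1 : ℤ), (0 : ℤ)), (1, 1), (0, 1)] (ex (M1 j)) = ![(0, 0), (0, 1), (0, 2), (0, 3), (1, 0),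
      (1, 1), (1, 1), (2, 1), (1, 2), (1, 3), (2, 2), (2, 3)] j := fun j => by
    fin_cases j <;> exact wt1 _ _ _
  refine Dat.hilb _ (fun j => ?_) fun a => ?_
  · rw [w1]; fin_cases j <;> exact wt1 _ _ _
  · simp only [w1, h1]
    split_ifs with h h'
    · subst h; decide
    · fin_cases h' <;> decide
    · refine (Finset.card_eq_zero.mpr (Finset.filter_eq_empty_iff.mpr fun j _ e => ?_)).symm
      revert h h'
      rw [← e]
      fin_cases j <;> decide

theorem cls1 {I : Ideal (MvPolynomial (Fin 3) T)} (hI : I ∈ Hilb ![((1 : ℤ), (0 : ℤ)), (1, 1), (0, 1)] h1 T) :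
    ∃ s hs, (DD s hs).K = I := by
  obtain ⟨S, _, ρ, π, a, b, c, Q, R, P⟩ := setup I
  have z : a ^ 2 = 0 := by simpa [Q, P] using Hilb.zero hI (d := ex (2, 0, 0)) (by rw [wt1]; rfl)
  have F : ∀ t : T, ρ t * (a * b * c ^ 2) = 0 → ρ t * (b ^ 2 * c) = 0 → t = 0 := fun t q1 q2 =>
    Hilb.faith hI (a := (2, 3)) rfl fun d hd => by
      obtain ⟨i, j, l, rfl⟩ := ex_surj d
      rw [wt1, Prod.mk.injEq] at hd
      rw [Q, smul_monomial, P, smul_eq_mul, mul_one]
      obtain ⟨rfl, rfl, rfl⟩ | ⟨rfl, rfl, rfl⟩ | ⟨rfl, rfl, rfl⟩ :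
        (i = 2 ∧ j = 0 ∧ l = 3) ∨ (i = 1 ∧ j = 1 ∧ l = 2) ∨ (i = 0 ∧ j = 2 ∧ l = 1) := by omega
      · linear_combination ρ t * c ^ 3 * z
      · linear_combination q1
      · linear_combination q2
  have sq : ∀ α β, ρ α * (b * c) - ρ β * (a * c ^ 2) = 0 → α * α = 0 := fun α β h => F _
    (by rw [map_mul]; linear_combination ρ α * a * c * h + ρ α * ρ β * c ^ 3 * z)
    (by rw [map_mul]; linear_combination (ρ α * b + ρ β * a * c) * h + ρ β ^ 2 * c ^ 3 * z)
  have G : ∀ x y : S, (∀ p : PrimeSpectrum T, ∃ α, ∃ β ∉ p.asIdeal, ρ α * x - ρ β * y = 0) → ∃ s, y = ρ s * x := by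
    intro x y h
    let E : Ideal T :=
      { carrier := {t | ∃ s, ρ t * y = ρ s * x}
        zero_mem' := ⟨0, by simp⟩
        add_mem' := fun ⟨s, e⟩ ⟨s', e'⟩ => ⟨s + s', by simp only [map_add, add_mul, e, e']⟩
        smul_mem' := fun r _ ⟨s, e⟩ => ⟨r * s, by simp only [smul_eq_mul, map_mul, mul_assoc, e]⟩ }
    have : E = ⊤ := by
      by_contra hne
      obtain ⟨p, hp, hle⟩ := Ideal.exists_le_maximal _ hne
      obtain ⟨α, β, e, e'⟩ := h ⟨p, hp.isPrime⟩
      exact e (hle ⟨α, (sub_eq_zero.mp e').symm⟩)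
    simpa using (show ∃ s, ρ 1 * y = ρ s * x from (Ideal.eq_top_iff_one E).mp this)
  obtain ⟨s, e1⟩ := G (b * c) (a * c ^ 2) fun p => by
    obtain ⟨α, β, r1, r2⟩ := Hilb.rel hI (a := (1, 2)) rfl (d1 := ex (0, 1, 1)) (d2 := ex (1, 0, 2)) (wt1 ..) (wt1 ..)
      (fun d hd => by
        obtain ⟨i, j, l, rfl⟩ := ex_surj d
        simp only [wt1, ex_inj, Prod.mk.injEq] at hd ⊢
        omega) p
    simp only [Q, map_sub, smul_monomial, P, smul_eq_mul, mul_one, pow_zero, pow_one, one_mul] at r2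
    exact ⟨α, β, r1.resolve_left fun h => h (p.2.mem_of_pow_mem 2 (by rw [pow_two, sq α β r2]; exact zero_mem _)), r2⟩
  have hs : s * s = 0 := sq s 1 (by rw [e1]; simp)
  obtain ⟨t, e2⟩ := G (b ^ 2) (a * b * c) fun p => by
    obtain ⟨α, β, r1, r2⟩ := Hilb.rel hI (a := (2, 2)) rfl (d1 := ex (0, 2, 0)) (d2 := ex (1, 1, 1)) (wt1 ..) (wt1 ..)
      (fun d hd => by
        obtain ⟨i, j, l, rfl⟩ := ex_surj d
        simp only [wt1, ex_inj, Prod.mk.injEq] at hd ⊢
        by_cases h : i = 2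
        · rw [Q, P, h, z]; simp
        · omega) p
    simp only [Q, map_sub, smul_monomial, P, smul_eq_mul, mul_one, pow_zero, pow_one, one_mul] at r2
    have k : ρ (α - β * s) * (b ^ 2 * c) = 0 := by
      rw [map_sub, map_mul]; linear_combination c * r2 + ρ β * b * e1
    have := sub_eq_zero.mp (F _ (by linear_combination ρ (α - β * s) * b * e1 + ρ s * k) k)
    exact ⟨α, β, r1.resolve_left fun h => h (this ▸ p.asIdeal.mul_mem_left _
      (p.2.mem_of_pow_mem 2 (by rw [pow_two, hs]; exact zero_mem _))), r2⟩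
  have k : ρ (t - s) * (b ^ 2 * c) = 0 := by rw [map_sub]; linear_combination b * e1 - c * e2
  obtain rfl := sub_eq_zero.mp (F _ (by linear_combination ρ (t - s) * b * e1 + ρ s * k) k)
  refine ⟨t, hs, Hilb.eq (DD_hilb t hs) hI (Dat.le _ fun d => ?_)⟩
  obtain ⟨i, j, l, rfl⟩ := ex_surj d
  by_cases h0 : h1 ((i : ℤ) + j, (j : ℤ) + l) = 0
  · rw [Finset.sum_eq_zero fun k _ => ?_, sub_zero]
    · exact Hilb.zero hI (wt1 i j l ▸ h0)
    rw [cc_apply, coeff_monomial, coeff_monomial, if_neg, if_neg, mul_zero, mul_zero, add_zero, zero_smul] <;>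
    · rw [ex_inj]; intro e; revert h0
      fin_cases k <;> cases e <;> decide
  have : (i, j, l) ∈ [(0,0,0), (0,0,1), (0,0,2), (0,0,3), (1,0,0), (0,1,0), (1,0,1), (1,1,0), (0,1,1), (0,1,2),
      (0,2,0), (0,2,1), (1,0,2), (1,0,3), (1,1,1), (1,1,2), (2,0,1), (2,0,2), (2,0,3)] := by
    have : i < 3 ∧ j < 3 ∧ l < 4 := by
      unfold h1 at h0
      split_ifs at h0 with q q'
      · rw [Prod.mk.injEq] at q; omega
      · simp only [Finset.mem_insert, Finset.mem_singleton, Prod.mk.injEq] at q'; omega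
      · exact absurd rfl h0
    revert h0
    obtain ⟨_, _, _⟩ := this
    interval_cases i <;> interval_cases j <;> interval_cases l <;> decide
  rw [Q]
  fin_cases this <;>
    simp [Fin.sum_univ_succ, cc_apply, coeff_monomial, ex_inj, DD, Dat.g, M1, M2, P, R, z]
  · linear_combination e1
  · linear_combination c * e1
  · linear_combination e2
  · linear_combination c * e2

theorem inj1 {s s' : T} {hs : s * s = 0} {hs' : s' * s' = 0} (h : (DD s hs).K = (DD s' hs').K) : s = s' := by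
  have : monomial (ex (1, 0, 2)) 1 - monomial (ex (0, 1, 1)) s ∈ (DD s hs).K := fun j => by
    fin_cases j <;> simp [cc_apply, coeff_monomial, ex_inj, DD, M1, M2]
  have := (h ▸ this) 8
  simp [cc_apply, coeff_monomial, ex_inj, DD, M1, M2] at this
  linear_combination -this

open DualNumber in
theorem main1 (k : Type u) [Field k] : ∃ J : Ideal (MvPolynomial (Fin 3) (DualNumber k)),
    ∀ (T : Type u) [CommRing T] [Algebra k T], Set.BijOn
      (fun φ : DualNumber k →ₐ[k] T => J.map (MvPolynomial.map φ.toRingHom)) Set.univ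
      (Hilb ![((1 : ℤ), (0 : ℤ)), (1, 1), (0, 1)] h1 T) := by
  refine ⟨(DD (eps : DualNumber k) eps_mul_eps).K, fun T _ _ => ?_⟩
  have h1 : ∀ φ : DualNumber k →ₐ[k] T, φ eps * φ eps = 0 := fun φ => by rw [← map_mul, eps_mul_eps, map_zero]
  have h3 : ∀ φ : DualNumber k →ₐ[k] T, (DD (eps : DualNumber k) eps_mul_eps).K.map (MvPolynomial.map φ.toRingHom) =
      (DD _ (h1 φ)).K := fun φ =>
    Dat.map _ _ _ (fun _ => by simp [DD]) (fun _ => by simp only [DD]; split_ifs <;> simp) (fun _ => by simp [DD])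
      fun _ => by simp [DD]
  simp only [h3]
  refine ⟨fun φ _ => DD_hilb _ _, fun φ _ ψ _ h => algHom_ext (inj1 h), fun I hI => ?_⟩
  obtain ⟨s, hs, rfl⟩ := cls1 hI
  exact ⟨lift ⟨(Algebra.ofId k T, s), hs, fun _ => .all _ _⟩, trivial, by simp only [lift_apply_eps]⟩

end Pool.Agent.H.MP_94ed3e_ag
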